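import Pool.Agent.Helper52.NF.St

set_option autoImplicit false

namespace Pool.Agent.Helper47.NF

open Pool.Agent.Helper52.NF Finset

private theorem sum_pt {N : Type} [DecidableEq N] (A : Finset N) (a : N) :
    ∑ v ∈ A, pt a v = if a ∈ A then 1 else 0 := by
  unfold pt
  rw [Finset.sum_ite_eq']

theorem hPAR : StPAR := by
  intro ε N _ _ α β E Q x z1 z2 hB hQ hP h1 h2
  have hα : ∀ e ∈ E, α e ∈ E.image α := fun e he => Finset.mem_image_of_mem α he
  have hβ : ∀ e ∈ E, β e ∉ E.image α := by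
    intro e he h
    obtain ⟨e', he', h'⟩ := Finset.mem_image.1 h
    exact hB e' he' e he h'
  have hsum : (Q.card : ZMod 2) = ∑ v ∈ E.image α, bd α β Q v := by
    unfold bd
    rw [Finset.sum_comm]
    have h3 : ∀ e ∈ Q, ∑ v ∈ E.image α, (pt (α e) v + pt (β e) v) = 1 := by
      intro e he
      rw [Finset.sum_add_distrib, sum_pt, sum_pt, if_pos (hα e (hQ he)), if_neg (hβ e (hQ he)),
        add_zero]
    rw [Finset.sum_congr rfl h3, Finset.sum_const, nsmul_eq_mul, mul_one]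
  have hsum2 : (Q.card : ZMod 2) =
      (if z1 ∈ E.image α then 1 else 0) + (if z2 ∈ E.image α then 1 else 0) := by
    rw [hsum, Finset.sum_congr rfl (fun v _ => hP.2 v), Finset.sum_add_distrib, sum_pt, sum_pt]
  have hiff : z1 ∈ E.image α ↔ z2 ∈ E.image α := by
    obtain ⟨e1, he1, h1⟩ := h1
    obtain ⟨e2, he2, h2⟩ := h2
    rcases h1 with ⟨ha1, hb1⟩ | ⟨ha1, hb1⟩
    · rcases h2 with ⟨ha2, hb2⟩ | ⟨ha2, hb2⟩
      · rw [← hb1, ← hb2]
        exact ⟨fun h => absurd h (hβ e1 he1), fun h => absurd h (hβ e2 he2)⟩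
      · exact absurd (ha1.trans hb2.symm) (hB e1 he1 e2 he2)
    · rcases h2 with ⟨ha2, hb2⟩ | ⟨ha2, hb2⟩
      · exact absurd (ha2.trans hb1.symm) (hB e2 he2 e1 he1)
      · rw [← ha1, ← ha2]
        exact ⟨fun _ => hα e2 he2, fun _ => hα e1 he1⟩
  have h0 : (Q.card : ZMod 2) = 0 := by
    rw [hsum2]
    by_cases h : z1 ∈ E.image α
    · rw [if_pos h, if_pos (hiff.1 h)]
      exact zz 1
    · rw [if_neg h, if_neg (fun h' => h (hiff.2 h')), add_zero]
  rw [even_iff_two_dvd]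
  exact (CharP.cast_eq_zero_iff (ZMod 2) 2 Q.card).1 h0

end Pool.Agent.Helper47.NF
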